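import Pool.Agent.Lib.MP_ad6092_nt.Criterion

namespace Pool.Agent.Results.MP_ad6092_nt.IntegerOrbits

open Pool.Agent.Lib.MP_ad6092_nt

theorem result (p q : ℕ) (hcop : Nat.Coprime p q) (hq : 2 ≤ q) (hqp : q < p)
    (r : ℕ) (hr : 1 ≤ r) :
    ((∃ x : ℝ, 0 < x ∧ ((r + 2 : ℕ) : ℕ∞) ≤ (expansions p q x).encard) ↔
        ∃ M : ℕ → ℕ, 1 ≤ M 0 ∧
          ∀ n, p * M n + r * (p - q) ≤ q * M (n + 1) ∧ q * M (n + 1) < p * M n + q) ∧
      ((∃ x : ℝ, 0 < x ∧ ((r + 2 : ℕ) : ℕ∞) ≤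
          {a : ℤ → ℕ | ∃ k : ℤ, 0 ≤ k ∧ IsExpansion p q x k a}.encard) ↔
        ∃ M : ℕ → ℕ, 1 ≤ M 0 ∧
          ∀ n, p * M n + r * (p - q) ≤ q * M (n + 1) ∧ q * M (n + 1) < p * M n + q) := by
  classical
  have hto : ∀ x : ℝ, ((r + 2 : ℕ) : ℕ∞) ≤ (expansions p q x).encard →
      ∃ M : ℕ → ℕ, 1 ≤ M 0 ∧
          ∀ n, p * M n + r * (p - q) ≤ q * M (n + 1) ∧ q * M (n + 1) < p * M n + q := by
    intro x hx
    obtain ⟨T, hT, hTc⟩ := Set.exists_subset_encard_eq hx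
    have hfin : T.Finite := Set.finite_of_encard_eq_coe hTc
    have hc : hfin.toFinset.card = r + 2 := by
      have := hfin.encard_eq_coe_toFinset_card
      rw [hTc] at this
      exact_mod_cast this.symm
    exact exists_exceptional hq hqp hcop hr hfin.toFinset
      (fun a ha => hT (hfin.mem_toFinset.1 ha)) hc
  have hfrom : (∃ M : ℕ → ℕ, 1 ≤ M 0 ∧
          ∀ n, p * M n + r * (p - q) ≤ q * M (n + 1) ∧ q * M (n + 1) < p * M n + q) →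
      ∃ x : ℝ, 0 < x ∧ ((r + 2 : ℕ) : ℕ∞) ≤
          {a : ℤ → ℕ | ∃ k : ℤ, 0 ≤ k ∧ IsExpansion p q x k a}.encard := by
    rintro ⟨M, hM⟩
    obtain ⟨x, hx, F, hFc, hF⟩ := exists_expansions hq hqp (r := r) (M := M) hM
    refine ⟨x, hx, ?_⟩
    rw [← hFc, ← Set.encard_coe_eq_coe_finsetCard]
    exact Set.encard_le_encard (fun a ha => hF a ha)
  have hsub : ∀ x : ℝ, {a : ℤ → ℕ | ∃ k : ℤ, 0 ≤ k ∧ IsExpansion p q x k a}.encard ≤
      (expansions p q x).encard := by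
    intro x
    apply Set.encard_le_encard
    rintro a ⟨k, -, hk⟩
    exact ⟨k, hk⟩
  refine ⟨⟨?_, ?_⟩, ⟨?_, hfrom⟩⟩
  · rintro ⟨x, -, hx⟩
    exact hto x hx
  · intro h
    obtain ⟨x, hx, hx2⟩ := hfrom h
    exact ⟨x, hx, hx2.trans (hsub x)⟩
  · rintro ⟨x, -, hx⟩
    exact hto x (hx.trans (hsub x))

end Pool.Agent.Results.MP_ad6092_nt.IntegerOrbits
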